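import Pool.Agent.W795.HE.PubB
import Pool.Agent.W597.HE.It
import Pool.Agent.W991.HE.Tp
import Pool.Agent.W52.TQ.Univ
import Pool.Agent.W405.HE.Cmp
import Pool.Agent.W701.HE.Reg
import Pool.Agent.W933.HE.ShiftCont
import Pool.Agent.W585.HE.Meas

/-!
The energy equality holds if at all but countably many times the dissipation is of type I, or the
solution with values in `L²` is left Hoelder continuous of order `1/4` in quadratic mean, with any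
constants.
-/

set_option autoImplicit false

open MeasureTheory Set Filter Topology
open scoped InnerProductSpace ENNReal ContDiff

namespace Pool.Agent.Results.MP_a38b17_an.HoelderBalance

open H772R2.NS.Pub Pool.Agent.W795.TQ
open Pool.Agent.W795.HE (StrongEnergy)

/-- Let `u` be a Leray-Hopf solution on `[0,T]` with the strong energy inequality, in a bounded
open set `Ω`, with force `⟨f(t), φ⟩ = (F(t), ∇φ)`, `F ∈ H¹(0,T; L²)` and initial value in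
`L²_σ`, the closure of `V`; `G = ∇u`. Suppose that `u : [0,T] → L²(Ω)` is continuous from the left
and that at all times `τ ∈ (0,T]`, with countably many exceptions,
`∫_t^τ ‖u(s) - u(τ)‖² ds = O((τ - t)^{3/2})` or `∫_t^τ ‖∇u‖² = O(√(τ - t))`. Then the energy
equality holds on `[0,t]` for every `t ∈ [0,T]`. -/
theorem result :
    ∀ (Ω : Set R3), IsOpen Ω → Bornology.IsBounded Ω → ∀ (ν T : ℝ), 0 < ν → 0 < T →
    ∀ (F F' : ℝ → L2 Ω Mat), IsH1 T F F' →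
    ∀ (u : ℝ → L2 Ω R3) (G : ℝ → L2 Ω Mat), IsLerayHopf Ω ν T F u G → StrongEnergy ν T F u G →
    u 0 ∈ closure {v : L2 Ω R3 | ∃ g : L2 Ω Mat, (v, g) ∈ H1graph Ω} →
    (∀ t ∈ Ioc 0 T, Tendsto u (𝓝[<] t) (𝓝 (u t))) →
    ∀ N : Set ℝ, N.Countable → (∀ τ ∈ Ioc 0 T, τ ∉ N →
      (∃ M : ℝ, ∀ t ∈ Icc 0 τ, ∫ s in t..τ, ‖u s - u τ‖ ^ 2 ≤ M * (τ - t) ^ (3 / 2 : ℝ)) ∨
      ∃ M : ℝ, ∀ t ∈ Icc 0 τ, ∫ s in t..τ, ‖G s‖ ^ 2 ≤ M * Real.sqrt (τ - t)) →
    ∀ t ∈ Icc 0 T, ‖u t‖ ^ 2 / 2 + ν * (∫ s in (0 : ℝ)..t, ‖G s‖ ^ 2)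
      = ‖u 0‖ ^ 2 / 2 + ∫ s in (0 : ℝ)..t, ⟪F s, G s⟫_ℝ := by
  intro Ω hΩ hb ν T hν hT F F' hF u G L hSE hu0 hleft N hN hmod
  refine Pool.Agent.W795.HE.b_mid Pool.Agent.W597.HE.proof Pool.Agent.W991.HE.proof_tp
    Pool.Agent.W991.HE.proof_grw (Pool.Agent.W701.HE.proof Pool.Agent.W405.HE.Cmp.proof)
    Pool.Agent.W933.HE.proof_shift Pool.Agent.W933.HE.proof_cont Pool.Agent.W585.HE.proof
    Pool.Agent.W52.TQ.proof_univ Ω hΩ hb ν T hν hT F F' hF.memLp hF.prim u G L hSE ?_ hleft N hN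
    hmod
  refine closure_mono ?_ hu0
  rintro v ⟨g, hg⟩
  exact ⟨g, mem_pub.mpr hg⟩

end Pool.Agent.Results.MP_a38b17_an.HoelderBalance
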